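import Pool.Agent.H4.Kon

set_option autoImplicit false

open Pool.Agent.H4.Kon

namespace Pool.Agent.Results.MP_914aa3_co.Counter

/-- A triple with all runs of length at least 2, outside the allowed family `(2j, 2j, 2k')` with
`j` odd, for which `S(k,m·,n)` does not decompose. -/
theorem result : ∃ k m n : ℕ, 2 ≤ k ∧ 2 ≤ m ∧ 2 ≤ n ∧
    (¬ ∃ j k' : ℕ, Odd j ∧ k = 2 * j ∧ m = 2 * j ∧ n = 2 * k') ∧ ¬ Decomposes k m n :=
  ⟨3, 4, 6, by norm_num, by norm_num, by norm_num, by rintro ⟨j, k', -, h, -⟩; omega,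
    fun h => h.2 win⟩

end Pool.Agent.Results.MP_914aa3_co.Counter
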